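import Mathlib
import Pool.Agent.Work.MP_42e384_co.Main

set_option autoImplicit false

/-!
MP_42e384_co: the sequence of Whitney numbers of the second kind of a matroid need not be unimodal,
let alone log-concave. For every `C` there are a finite matroid `M` that is represented by a finite
family of vectors over the rationals and a rank `k`, `2 ≤ k < rank M`, with
`C * W_k < W_(k-1)` and `C * W_k < W_(k+1)`.
-/

namespace Pool.Agent.Results.MP_42e384_co.NotUnimodal

/-- the number `W_k` of flats of rank `k` -/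
noncomputable def W {α : Type} (M : Matroid α) (k : ℕ) : ℕ :=
  {F : Set α | M.IsFlat F ∧ M.eRk F = (k : ℕ∞)}.ncard

theorem result (C : ℕ) :
    ∃ (α : Type) (_ : Finite α) (M : Matroid α) (k : ℕ),
      M.E = Set.univ ∧
      (∃ (ι : Type) (_ : Finite ι) (v : α → ι → ℚ),
        ∀ I : Set α, M.Indep I ↔ LinearIndepOn ℚ v I) ∧
      2 ≤ k ∧ ((k + 1 : ℕ) : ℕ∞) ≤ M.eRank ∧
      C * W M k < W M (k - 1) ∧ C * W M k < W M (k + 1) := by
  obtain ⟨n, p, m, _, _, hr, h1, h3⟩ := Pool.Agent.Whitney.valley C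
  refine ⟨Pool.Agent.Whitney.Gr n p m, inferInstance, Pool.Agent.Whitney.Mx n p m,
    Fintype.card (Pool.Agent.Whitney.Sx n p) + 2, rfl, ?_, by omega, hr, h1, h3⟩
  refine ⟨Fin n ⊕ Pool.Agent.Whitney.Sx n p, inferInstance,
    fun x => Sum.elim (Pool.Agent.Whitney.vec x).1 (Pool.Agent.Whitney.vec x).2, fun I => ?_⟩
  rw [Pool.Agent.Whitney.linMat_indep]
  let e : Pool.Agent.Whitney.Vs n p ≃ₗ[ℚ] (Fin n ⊕ Pool.Agent.Whitney.Sx n p → ℚ) :=
    (LinearEquiv.sumArrowLequivProdArrow (Fin n) (Pool.Agent.Whitney.Sx n p) ℚ ℚ).symm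
  have he : (fun x => Sum.elim (Pool.Agent.Whitney.vec x).1 (Pool.Agent.Whitney.vec x).2) =
      fun x => e (Pool.Agent.Whitney.vec (x : Pool.Agent.Whitney.Gr n p m)) := by
    funext x
    rfl
  rw [he]
  exact (LinearMap.linearIndepOn_iff_of_injOn e.toLinearMap e.injective.injOn).symm

end Pool.Agent.Results.MP_42e384_co.NotUnimodal
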